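import Pool.Agent.K3h22.EX.Stm

/-! EX project (helper22), brick AVOID: perturbation inside `{Re Φ = 0}`. -/

set_option autoImplicit false

namespace Pool.Agent.K3h33.EX

open MvPolynomial Filter Topology Metric Set
open Pool.Agent.K3h22.EX

/-- the differential of a polynomial -/
noncomputable def dif {s : ℕ} (q : MvPolynomial (Fin s) ℂ) (z : Fin s → ℂ) :
    (Fin s → ℂ) →L[ℂ] ℂ :=
  ∑ b, (eval z (pderiv b q)) • (ContinuousLinearMap.proj b : (Fin s → ℂ) →L[ℂ] ℂ)

lemma dif_apply {s : ℕ} (q : MvPolynomial (Fin s) ℂ) (z v : Fin s → ℂ) :
    dif q z v = ∑ b, eval z (pderiv b q) * v b := by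
  simp [dif, ContinuousLinearMap.sum_apply]

lemma hasStrict_eval {s : ℕ} (q : MvPolynomial (Fin s) ℂ) (z : Fin s → ℂ) :
    HasStrictFDerivAt (fun x : Fin s → ℂ => eval x q) (dif q z) z := by
  induction q using MvPolynomial.induction_on with
  | C a =>
    have h : dif (C a) z = 0 := by
      ext v; simp [dif_apply]
    rw [h]
    simpa using hasStrictFDerivAt_const (𝕜 := ℂ) a z
  | add p q hp hq =>
    have h : dif (p + q) z = dif p z + dif q z := by
      ext v; simp [dif_apply, add_mul, Finset.sum_add_distrib]
    rw [h]
    have h2 : (fun x : Fin s → ℂ => eval x (p + q)) =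
        (fun x : Fin s → ℂ => eval x p) + fun x : Fin s → ℂ => eval x q := by
      ext x; simp
    rw [h2]
    exact hp.add hq
  | mul_X p i hp =>
    have h0 : HasStrictFDerivAt (fun x : Fin s → ℂ => x i)
        (ContinuousLinearMap.proj i : (Fin s → ℂ) →L[ℂ] ℂ) z :=
      (ContinuousLinearMap.proj i : (Fin s → ℂ) →L[ℂ] ℂ).hasStrictFDerivAt
    have h1 := hp.mul h0
    have h : dif (p * X i) z = eval z p • (ContinuousLinearMap.proj i : (Fin s → ℂ) →L[ℂ] ℂ)
        + z i • dif p z := by
      ext v
      simp only [dif_apply, pderiv_mul, pderiv_X, map_add, map_mul, eval_X,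
        ContinuousLinearMap.add_apply, ContinuousLinearMap.smul_apply,
        ContinuousLinearMap.proj_apply, smul_eq_mul, add_mul, Finset.sum_add_distrib,
        Finset.mul_sum]
      rw [add_comm]
      congr 1
      · rw [Finset.sum_eq_single i]
        · simp
        · intro b _ hb
          simp [Pi.single_apply, hb.symm, hb]
        · intro hb; exact absurd (Finset.mem_univ i) hb
      · apply Finset.sum_congr rfl
        intro b _; ring
    rw [h]
    have h2 : (fun x : Fin s → ℂ => eval x (p * X i)) =
        (fun x : Fin s → ℂ => eval x p) * fun x : Fin s → ℂ => x i := by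
      ext x; simp
    rw [h2]
    exact h1

/-- the degree drops -/
lemma totalDegree_pderiv_lt {s : ℕ} (P : MvPolynomial (Fin s) ℂ) (i : Fin s)
    (h : pderiv i P ≠ 0) : (pderiv i P).totalDegree < P.totalDegree := by
  classical
  obtain ⟨m, hm, hmax⟩ := Finset.exists_mem_eq_sup _ (support_nonempty.2 h)
    (fun s : Fin s →₀ ℕ => s.sum fun _ e => e)
  have h1 : (pderiv i P).totalDegree = m.sum fun _ e => e := hmax
  have h2 : coeff m (pderiv i P) ≠ 0 := mem_support_iff.1 hm
  rw [coeff_pderiv] at h2
  have h3 : coeff (m + Finsupp.single i 1) P ≠ 0 := fun h0 => h2 (by rw [h0]; simp)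
  have h4 := le_totalDegree (mem_support_iff.2 h3)
  rw [Finsupp.sum_add_index' (by simp) (by simp)] at h4
  simp at h4
  rw [h1]
  simpa [Finsupp.sum] using Nat.lt_of_succ_le h4

/-- a polynomial of characteristic 0 with vanishing partial derivatives is constant -/
lemma eq_C_of_pderiv {s : ℕ} (P : MvPolynomial (Fin s) ℂ) (h : ∀ i, pderiv i P = 0) :
    P = C (coeff 0 P) := by
  classical
  ext m
  rw [coeff_C]
  split_ifs with hm
  · rw [← hm]
  · have : ∃ i, m i ≠ 0 := by
      by_contra hc
      push Not at hc
      exact hm (by ext i; simp [hc i])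
    obtain ⟨i, hi⟩ := this
    have h1 := congrArg (coeff (m - Finsupp.single i 1)) (h i)
    rw [coeff_pderiv, coeff_zero] at h1
    have h2 : m - Finsupp.single i 1 + Finsupp.single i 1 = m := by
      ext j
      by_cases hj : j = i
      · subst hj; simp; omega
      · simp [Finsupp.single_apply, Ne.symm hj, hj]
    rw [h2] at h1
    rcases mul_eq_zero.1 h1 with h3 | h3
    · exact h3
    · exfalso
      exact Nat.cast_add_one_ne_zero _ h3

theorem t_AVOID : S_AVOID := by
  classical
  intro s Φ ζ hζ hdet q hq ε hε
  by_contra hcon
  push Not at hcon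
  -- the map and its derivative
  set F : (Fin s → ℂ) → (Fin s → ℂ) := fun z a => eval z (Φ a) with hF
  have hdF : ∀ z, HasStrictFDerivAt F (ContinuousLinearMap.pi fun a => dif (Φ a) z) z := by
    intro z
    rw [hasStrictFDerivAt_pi]
    intro a
    exact hasStrict_eval (Φ a) z
  have hcont : ∀ r : MvPolynomial (Fin s) ℂ, Continuous fun z : Fin s → ℂ => eval z r := by
    intro r
    exact MvPolynomial.continuous_eval r
  have hcj : Continuous fun z => (jac Φ z).det := by
    apply Continuous.matrix_det
    apply continuous_matrix
    intro a b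
    exact hcont _
  have hopen : ∀ᶠ z in 𝓝 ζ, (jac Φ z).det ≠ 0 := hcj.continuousAt.eventually_ne hdet
  have main : ∀ N : ℕ, ∀ r : MvPolynomial (Fin s) ℂ, r.totalDegree < N →
      (∀ᶠ z in 𝓝 ζ, (∀ a, (eval z (Φ a)).re = 0) → eval z r = 0) → r = 0 := by
    intro N
    induction N with
    | zero => intro r hr; omega
    | succ N ih =>
      intro r hr hv
      have hkey : ∀ b, pderiv b r = 0 := by
        intro b
        by_contra hne
        apply hne
        apply ih
        · have := totalDegree_pderiv_lt r b hne
          omega
        have hv' := hv.eventually_nhds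
        filter_upwards [hv', hopen] with z hz hdz hre
        -- the differential of `r` vanishes at `z`
        have hinj : Function.Injective (ContinuousLinearMap.pi fun a => dif (Φ a) z) := by
          rw [injective_iff_map_eq_zero]
          intro v hvz
          have hmv : (jac Φ z).mulVec v = 0 := by
            ext a
            have := congrFun hvz a
            simpa [jac, Matrix.mulVec, dotProduct, dif_apply] using this
          exact Matrix.eq_zero_of_mulVec_eq_zero hdz hmv
        let e0 : (Fin s → ℂ) ≃ₗ[ℂ] (Fin s → ℂ) :=
          LinearEquiv.ofInjectiveEndo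
            ((ContinuousLinearMap.pi fun a => dif (Φ a) z : (Fin s → ℂ) →L[ℂ] (Fin s → ℂ)) :
              (Fin s → ℂ) →ₗ[ℂ] (Fin s → ℂ)) hinj
        let e : (Fin s → ℂ) ≃L[ℂ] (Fin s → ℂ) := e0.toContinuousLinearEquiv
        have he : (e : (Fin s → ℂ) →L[ℂ] (Fin s → ℂ)) =
            ContinuousLinearMap.pi fun a => dif (Φ a) z := by
          ext v a
          rfl
        have hFe : HasStrictFDerivAt F (e : (Fin s → ℂ) →L[ℂ] (Fin s → ℂ)) z := by
          rw [he]; exact hdF z
        set ψ := hFe.localInverse F e z with hψ
        have hψF : ψ (F z) = z := hFe.localInverse_apply_image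
        have hFψ : ∀ᶠ w in 𝓝 (F z), F (ψ w) = w := hFe.eventually_right_inverse
        have hψd : HasStrictFDerivAt ψ (e.symm : (Fin s → ℂ) →L[ℂ] (Fin s → ℂ)) (F z) :=
          hFe.to_localInverse
        have hψc : ContinuousAt ψ (F z) := hFe.localInverse_continuousAt
        have hdir : ∀ k : Fin s, dif r z (e.symm (Pi.single k Complex.I)) = 0 := by
          intro k
          let c : ℝ → (Fin s → ℂ) := fun t => F z + (t : ℂ) • Pi.single k Complex.I
          have hc0 : c 0 = F z := by simp [c]
          have hcd : HasDerivAt c (Pi.single k Complex.I) 0 := by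
            have h1 : HasDerivAt (fun t : ℝ => (t : ℂ)) 1 0 := Complex.ofRealCLM.hasDerivAt
            have h2 := (h1.smul_const (Pi.single k Complex.I : Fin s → ℂ)).const_add (F z)
            simpa [c] using h2
          have hψd' : HasFDerivAt ψ ((e.symm : (Fin s → ℂ) →L[ℂ] (Fin s → ℂ)).restrictScalars ℝ)
              (c 0) := by
            rw [hc0]
            exact hψd.hasFDerivAt.restrictScalars ℝ
          have h3 : HasDerivAt (ψ ∘ c) (e.symm (Pi.single k Complex.I)) 0 :=
            hψd'.comp_hasDerivAt 0 hcd
          have hr' : HasFDerivAt (fun x : Fin s → ℂ => eval x r)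
              ((dif r z).restrictScalars ℝ) ((ψ ∘ c) 0) := by
            have : (ψ ∘ c) 0 = z := by
              rw [Function.comp_apply, hc0, hψF]
            rw [this]
            exact (hasStrict_eval r z).hasFDerivAt.restrictScalars ℝ
          have h4 : HasDerivAt ((fun x : Fin s → ℂ => eval x r) ∘ (ψ ∘ c))
              (dif r z (e.symm (Pi.single k Complex.I))) 0 :=
            hr'.comp_hasDerivAt 0 h3
          have hct : ContinuousAt c 0 := hcd.continuousAt
          have h5 : ∀ᶠ t in 𝓝 (0 : ℝ), F (ψ (c t)) = c t := by
            have : Tendsto c (𝓝 0) (𝓝 (F z)) := by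
              have := hct.tendsto; rwa [hc0] at this
            exact this.eventually hFψ
          have h6 : ∀ᶠ t in 𝓝 (0 : ℝ), (∀ a, (eval (ψ (c t)) (Φ a)).re = 0) →
              eval (ψ (c t)) r = 0 := by
            have h7 : Tendsto (fun t => ψ (c t)) (𝓝 0) (𝓝 z) := by
              have h8 : Tendsto c (𝓝 0) (𝓝 (F z)) := by
                have := hct.tendsto; rwa [hc0] at this
              have h9 := hψc.tendsto
              rw [hψF] at h9
              exact h9.comp h8
            exact h7.eventually hz
          have h10 : ((fun x : Fin s → ℂ => eval x r) ∘ (ψ ∘ c)) =ᶠ[𝓝 0] fun _ => 0 := by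
            filter_upwards [h5, h6] with t ht1 ht2
            apply ht2
            intro a
            have := congrFun ht1 a
            have h11 : eval (ψ (c t)) (Φ a) = c t a := this
            rw [h11]
            have h12 : (F z a).re = 0 := hre a
            by_cases hka : a = k
            · subst hka
              simp [c, h12]
            · simp [c, h12, Pi.single_apply, hka]
          have h13 : HasDerivAt ((fun x : Fin s → ℂ => eval x r) ∘ (ψ ∘ c)) 0 0 :=
            (hasDerivAt_const (0 : ℝ) (0 : ℂ)).congr_of_eventuallyEq h10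
          exact h4.unique h13
        have hall : ∀ w : Fin s → ℂ, dif r z (e.symm w) = 0 := by
          intro w
          have hw : w = ∑ k, (w k / Complex.I) • (Pi.single k Complex.I : Fin s → ℂ) := by
            ext j
            simp [Finset.sum_apply, Pi.single_apply]
            rw [mul_assoc, Complex.I_mul_I]; ring
          rw [hw, map_sum, map_sum]
          apply Finset.sum_eq_zero
          intro k _
          rw [map_smul, map_smul, hdir k, smul_zero]
        have h14 := hall (e (Pi.single b 1))
        rw [e.symm_apply_apply, dif_apply] at h14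
        simpa [Pi.single_apply] using h14
      have h15 := eq_C_of_pderiv r hkey
      have h16 := hv.self_of_nhds hζ
      rw [h15, eval_C] at h16
      rw [h15, h16, C_0]
  apply hq
  apply main (q.totalDegree + 1) q (Nat.lt_succ_self _)
  filter_upwards [ball_mem_nhds ζ hε] with z hz hre
  exact hcon z hz hre

end Pool.Agent.K3h33.EX
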